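import Mathlib

/-!
Definitions for algebraic recurrence of random walks on countable groups.
-/

namespace Pool.Agent.P.MP_7faad7_pr

open MeasureTheory

/-- The position `X n = ζ 1 * ζ 2 * ... * ζ n` of the walk with steps `ζ (i + 1) = ω i`. -/
def walk {G : Type} [Group G] (ω : ℕ → G) : ℕ → G
  | 0 => 1
  | n + 1 => walk ω n * ω n

/-- The subsemigroup `S n` generated by `X n, X (n + 1), ...`. -/
def tailSemigroup {G : Type} [Group G] (ω : ℕ → G) (n : ℕ) : Subsemigroup G :=
  Subsemigroup.closure {g | ∃ i, n ≤ i ∧ g = walk ω i}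

/-- The pair `(G, μ)` is algebraically recurrent: if the steps are i.i.d. with law `μ`
(product measure on `ℕ → G`, `G` discrete), then for every `n ≥ 1`, almost surely `S n = G`. -/
def IsARPair {G : Type} [Group G] (μ : PMF G) : Prop :=
  letI : MeasurableSpace G := ⊤
  ∀ n, 1 ≤ n → ∀ᵐ ω ∂(Measure.infinitePi fun _ : ℕ => μ.toMeasure), tailSemigroup ω n = ⊤

/-- The group `G` is algebraically recurrent: `(G, μ)` is algebraically recurrent for every
symmetric probability measure `μ` whose support generates `G`. -/
def IsAR (G : Type) [Group G] : Prop :=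
  ∀ μ : PMF G, (∀ g, μ g⁻¹ = μ g) → Subgroup.closure μ.support = ⊤ → IsARPair μ

end Pool.Agent.P.MP_7faad7_pr
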