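import Mathlib
import Pool.Agent.P.MP_7faad7_pr.Defs

namespace Pool.Agent.P.MP_7faad7_pr

open MeasureTheory Filter Topology
open scoped ENNReal

/-- An i.i.d. sequence almost surely contains a given word of positive probability after time `n`. -/
theorem monkey {G : Type} [MeasurableSpace G] [MeasurableSingletonClass G] [Countable G]
    (ν : Measure G) [IsProbabilityMeasure ν] (L : ℕ) (W : Fin L → G) (hW : ∀ j, ν {W j} ≠ 0)
    (n : ℕ) :
    ∀ᵐ ω ∂(Measure.infinitePi fun _ : ℕ => ν), ∃ i, n ≤ i ∧ ∀ j : Fin L, ω (i + j) = W j := by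
  rcases Nat.eq_zero_or_pos L with rfl | hL
  · exact Eventually.of_forall fun ω => ⟨n, le_rfl, fun j => j.elim0⟩
  let f : ℕ × Fin L → ℕ := fun p => n + p.1 * L + p.2
  have hf : Function.Injective f := by
    rintro ⟨a, j⟩ ⟨b, k⟩ h
    simp only [f] at h
    have h1 : a * L + j = b * L + k := by omega
    have hj := j.2
    have hk := k.2
    have h2 : a = b := by
      have e1 : (a * L + j) / L = a := by
        rw [mul_comm, Nat.mul_add_div hL, Nat.div_eq_of_lt hj]; rfl
      have e2 : (b * L + k) / L = b := by
        rw [mul_comm, Nat.mul_add_div hL, Nat.div_eq_of_lt hk]; rfl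
      rw [← e1, h1, e2]
    subst h2
    have : j = k := Fin.ext (by omega)
    rw [this]
  have h1 := Measure.map_infinitePi_infinitePi_of_inj (P := fun _ : ℕ => ν) hf
  have h2 := Measure.infinitePi_map_curry (fun (_ : ℕ) (_ : Fin L) => ν)
  set β : Measure (Fin L → G) := Measure.infinitePi fun _ : Fin L => ν with hβ
  have hβW : β {W} ≠ 0 := by
    rw [hβ, Measure.infinitePi_singleton_of_fintype]
    exact Finset.prod_ne_zero_iff.2 fun j _ => hW j
  have hlt : β {W}ᶜ < 1 := by
    rw [prob_compl_eq_one_sub (measurableSet_singleton W)]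
    exact ENNReal.sub_lt_self ENNReal.one_ne_top one_ne_zero hβW
  have h3 : ∀ᵐ x ∂(Measure.infinitePi fun _ : ℕ => β), ∃ k, x k = W := by
    rw [ae_iff]
    have hle : ∀ N : ℕ, (Measure.infinitePi fun _ : ℕ => β) {x | ¬ ∃ k, x k = W}
        ≤ (β {W}ᶜ) ^ N := by
      intro N
      have := Measure.infinitePi_pi (fun _ : ℕ => β) (s := Finset.range N)
        (t := fun _ => {W}ᶜ) (fun _ _ => (measurableSet_singleton W).compl)
      rw [Finset.prod_const, Finset.card_range] at this
      rw [← this]
      apply measure_mono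
      intro x hx i _
      exact fun h => hx ⟨i, h⟩
    have := ENNReal.tendsto_pow_atTop_nhds_zero_of_lt_one hlt
    exact le_antisymm (ge_of_tendsto' this hle) (by simp)
  rw [← h2, ← h1] at h3
  have h4 := ae_of_ae_map (by fun_prop) h3
  have h5 := ae_of_ae_map (Measurable.aemeasurable (by fun_prop)) h4
  filter_upwards [h5] with ω hω
  obtain ⟨k, hk⟩ := hω
  refine ⟨n + k * L, by omega, fun j => ?_⟩
  have := congrFun hk j
  simpa [f] using this

theorem walk_add {G : Type} [Group G] (ω : ℕ → G) (l : List G) (i : ℕ)
    (h : ∀ j : Fin l.length, ω (i + j) = l.get j) : walk ω (i + l.length) = walk ω i * l.prod := by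
  induction l generalizing i with
  | nil => simp
  | cons a l ih =>
    have h0 : ω i = a := by simpa using h ⟨0, by simp⟩
    have := ih (i + 1) (fun j => by
      have := h j.succ
      simpa [add_assoc, add_comm 1] using this)
    rw [List.length_cons, show i + (l.length + 1) = i + 1 + l.length by ring, this]
    simp [walk, h0, mul_assoc]

theorem mem_of_torsion {G : Type} [Group G] (S : Subsemigroup G) {y x : G} (hy : y ∈ S)
    (hyx : y * x ∈ S) (ht : IsOfFinOrder y) : x ∈ S := by
  obtain ⟨k, hk, hk1⟩ := isOfFinOrder_iff_pow_eq_one.1 ht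
  have : ∀ m : ℕ, y ^ m * (y * x) ∈ S := by
    intro m
    induction m with
    | zero => simpa using hyx
    | succ m ih =>
      rw [pow_succ', mul_assoc]
      exact S.mul_mem hy ih
  have h := this (k - 1)
  rwa [← mul_assoc, ← pow_succ, Nat.sub_add_cancel hk, hk1, one_mul] at h

/-- If all elements outside a proper subgroup have finite order, the group is algebraically
recurrent. -/
theorem isAR_of_torsion_outside {G : Type} [Group G] [Countable G] (K : Subgroup G) (a : G)
    (ha : a ∉ K) (hK : ∀ g, g ∉ K → IsOfFinOrder g) : IsAR G := by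
  intro μ hsym hgen n _
  let _ : MeasurableSpace G := ⊤
  have hlist : ∀ x : G, ∃ l : List G, (∀ y ∈ l, y ∈ μ.support) ∧ l.prod = x := by
    intro x
    have hx : x ∈ (Subgroup.closure μ.support).toSubmonoid := by rw [hgen]; trivial
    rw [Subgroup.closure_toSubmonoid] at hx
    obtain ⟨l, hl, rfl⟩ := Submonoid.exists_list_of_mem_closure hx
    refine ⟨l, fun y hy => ?_, rfl⟩
    rcases hl y hy with h | h
    · exact h
    · have : μ y⁻¹ ≠ 0 := h
      rw [hsym] at this
      exact this
  have key : ∀ x : G, ∀ᵐ ω ∂(Measure.infinitePi fun _ : ℕ => μ.toMeasure),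
      x ∈ tailSemigroup ω n := by
    intro x
    obtain ⟨l, hl, hlx⟩ := hlist x
    obtain ⟨l', hl', hlx'⟩ := hlist (x⁻¹ * a)
    have hm := monkey μ.toMeasure (l ++ l' ++ l).length (l ++ l' ++ l).get (fun j => by
      rw [PMF.toMeasure_apply_singleton _ _ (measurableSet_singleton _)]
      have := List.get_mem (l ++ l' ++ l) j
      simp only [List.mem_append] at this
      rcases this with (h | h) | h
      · exact hl _ h
      · exact hl' _ h
      · exact hl _ h) n
    filter_upwards [hm] with ω hω
    obtain ⟨i, hi, hω⟩ := hω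
    have e1 : walk ω (i + l.length) = walk ω i * x := by
      rw [← hlx]
      apply walk_add
      intro j
      have := hω ⟨j, by have := j.2; simp; omega⟩
      rw [this]
      simp [List.getElem_append_left]
    have e2 : walk ω (i + (l ++ l').length) = walk ω i * a := by
      rw [walk_add ω (l ++ l') i, List.prod_append, hlx, hlx']
      · simp
      intro j
      have hj := j.2
      have := hω ⟨j, by simp at hj ⊢; omega⟩
      rw [this]
      simp only [List.get_eq_getElem]
      rw [List.getElem_append_left]
    have e3 : walk ω (i + (l ++ l' ++ l).length) = walk ω i * a * x := by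
      rw [walk_add ω _ i hω, List.prod_append, List.prod_append, hlx, hlx']
      simp [mul_assoc]
    have mem : ∀ j, walk ω (i + j) ∈ tailSemigroup ω n := fun j =>
      Subsemigroup.subset_closure ⟨i + j, by omega, rfl⟩
    by_cases h : walk ω i ∈ K
    · have h' : walk ω i * a ∉ K := fun h' => ha (by simpa using K.mul_mem (K.inv_mem h) h')
      exact mem_of_torsion _ (e2 ▸ mem _) (e3 ▸ mem _) (hK _ h')
    · exact mem_of_torsion _ (by simpa using mem 0) (e1 ▸ mem _) (hK _ h)
  have := ae_all_iff.2 key
  filter_upwards [this] with ω hω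
  exact eq_top_iff.2 fun x _ => hω x

end Pool.Agent.P.MP_7faad7_pr
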