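import Mathlib

namespace Pool.Agent.P.MP_7faad7_pr

open MeasureTheory
open scoped ENNReal

/-- time bound at level `l` -/
def Nn (l : ℕ) : ℕ := 2 ^ (2 * l + 6)

/-- number of indices at level `l` -/
def Ln (r l : ℕ) : ℕ := if l = 0 then r + 1 else Nn l ^ 2 * 2 ^ (l + 4)

theorem Ln_pos (r l : ℕ) : 0 < Ln r l := by
  unfold Ln Nn; split_ifs <;> positivity

abbrev Idx : Type := ℕ × ℕ × Bool

noncomputable def wt (r : ℕ) (x : Idx) : ℝ≥0∞ :=
  if x.2.1 < Ln r x.1 then 2⁻¹ ^ (x.1 + 1) * (2 * (Ln r x.1 : ℝ≥0∞))⁻¹ else 0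

theorem wt_level (r l : ℕ) : ∑' y : ℕ × Bool, wt r (l, y) = 2⁻¹ ^ (l + 1) := by
  rw [ENNReal.tsum_prod']
  have h : ∀ i : ℕ, ∑' b : Bool, wt r (l, i, b)
      = if i < Ln r l then 2⁻¹ ^ (l + 1) * (Ln r l : ℝ≥0∞)⁻¹ else 0 := by
    intro i
    rw [tsum_fintype]
    simp only [wt, Fintype.univ_bool]
    split_ifs
    · simp only [Finset.sum_const]
      rw [ENNReal.mul_inv (by simp) (by simp)]
      simp only [Finset.card_insert_of_notMem, Finset.mem_singleton, Bool.true_eq_false,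
        not_false_eq_true, Finset.card_singleton, nsmul_eq_mul]
      norm_num
      rw [mul_left_comm, ← mul_assoc (2 : ℝ≥0∞), ENNReal.mul_inv_cancel (by simp) (by simp),
        one_mul]
    · simp
  simp only [h]
  rw [tsum_eq_sum (s := Finset.range (Ln r l)) (by intro i hi; simp at hi; simp [hi])]
  rw [Finset.sum_congr rfl (g := fun _ => 2⁻¹ ^ (l + 1) * (Ln r l : ℝ≥0∞)⁻¹)
    (by intro i hi; simp at hi; simp [hi])]
  rw [Finset.sum_const, Finset.card_range, nsmul_eq_mul, mul_left_comm,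
    ENNReal.mul_inv_cancel (by simpa using (Ln_pos r l).ne') (by simp), mul_one]

theorem wt_total (r : ℕ) : ∑' x : Idx, wt r x = 1 := by
  rw [ENNReal.tsum_prod']
  simp only [wt_level]
  rw [ENNReal.tsum_geometric_add_one]
  simp [ENNReal.one_sub_inv_two, ENNReal.inv_mul_cancel]

noncomputable def nu (r : ℕ) : PMF Idx :=
  ⟨wt r, by rw [← wt_total r]; exact ENNReal.summable.hasSum⟩

theorem nu_apply (r : ℕ) (x : Idx) : nu r x = wt r x := rfl

theorem nu_level (r l : ℕ) : (nu r).toMeasure {x | x.1 = l} = 2⁻¹ ^ (l + 1) := by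
  rw [PMF.toMeasure_apply _ (MeasurableSet.of_discrete), ENNReal.tsum_prod', ← wt_level r l,
    tsum_eq_single l]
  · congr 1
    ext y
    simp [Set.indicator, nu_apply]
  · intro b hb
    simp [Set.indicator, hb]

theorem nu_le_level (r l : ℕ) : (nu r).toMeasure {x | x.1 ≤ l} ≤ 1 - 2⁻¹ ^ (l + 2) := by
  rw [← nu_level r (l + 1), ← prob_compl_eq_one_sub MeasurableSet.of_discrete]
  apply measure_mono
  intro x hx
  simp only [Set.mem_ofPred_eq, Set.mem_compl_iff] at hx ⊢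
  omega

theorem nu_idx (r l i : ℕ) : (nu r).toMeasure {x | x.1 = l ∧ x.2.1 = i}
    ≤ if i < Ln r l then (Ln r l : ℝ≥0∞)⁻¹ else 0 := by
  have : {x : Idx | x.1 = l ∧ x.2.1 = i} = {(l, i, true)} ∪ {(l, i, false)} := by
    ext ⟨a, b, c⟩
    cases c <;> simp
  rw [this]
  refine (measure_union_le _ _).trans ?_
  rw [PMF.toMeasure_apply_singleton _ _ (measurableSet_singleton _),
    PMF.toMeasure_apply_singleton _ _ (measurableSet_singleton _)]
  simp only [nu_apply, wt]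
  split_ifs
  · rw [← two_mul, ENNReal.mul_inv (by simp) (by simp), mul_left_comm, ← mul_assoc (2 : ℝ≥0∞),
      ENNReal.mul_inv_cancel (by simp) (by simp), one_mul]
    exact mul_le_of_le_one_left (by simp) (pow_le_one₀ (by simp) (by simp))
  · simp

def B0 : Set (ℕ → Idx) := {ξ | (ξ 0).1 = 0}

def B1 (l : ℕ) : Set (ℕ → Idx) :=
  {ξ | ∃ a < Nn (l + 1), ∃ b < Nn (l + 1), a ≠ b ∧ (ξ a).1 = l + 1 ∧ (ξ b).1 = l + 1 ∧
    (ξ a).2.1 = (ξ b).2.1}

def B2 (l : ℕ) : Set (ℕ → Idx) := {ξ | ∀ a < Nn l, (ξ a).1 ≤ l}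

noncomputable abbrev PP (r : ℕ) : Measure (ℕ → Idx) :=
  Measure.infinitePi fun _ : ℕ => (nu r).toMeasure

theorem P_B0 (r : ℕ) : PP r B0 = 2⁻¹ := by
  have := Measure.infinitePi_pi (fun _ : ℕ => (nu r).toMeasure) (s := {0})
    (t := fun _ => {x | x.1 = 0}) (fun _ _ => MeasurableSet.of_discrete)
  rw [Finset.prod_singleton, nu_level] at this
  simp only [zero_add, pow_one] at this
  rw [← this]
  congr 1
  ext ξ
  simp [B0]

theorem one_sub_pow_le (x : ℝ) (h0 : 0 ≤ x) (h1 : x ≤ 1) (N : ℕ) :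
    (1 - x) ^ N * (1 + N * x) ≤ 1 := by
  have h2 : 1 + N * x ≤ (1 + x) ^ N := one_add_mul_le_pow (by linarith) N
  calc (1 - x) ^ N * (1 + N * x) ≤ (1 - x) ^ N * (1 + x) ^ N :=
        mul_le_mul_of_nonneg_left h2 (pow_nonneg (by linarith) _)
    _ = (1 - x ^ 2) ^ N := by rw [← mul_pow]; ring
    _ ≤ 1 := pow_le_one₀ (by nlinarith) (by nlinarith)

theorem P_B2 (r l : ℕ) : PP r (B2 l) ≤ 2⁻¹ ^ (l + 4) := by
  have := Measure.infinitePi_pi (fun _ : ℕ => (nu r).toMeasure) (s := Finset.range (Nn l))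
    (t := fun _ => {x | x.1 ≤ l}) (fun _ _ => MeasurableSet.of_discrete)
  rw [Finset.prod_const, Finset.card_range] at this
  have e : B2 l = Set.pi (Finset.range (Nn l) : Set ℕ) (fun _ => {x : Idx | x.1 ≤ l}) := by
    ext ξ
    simp [B2]
  rw [e, this]
  refine (pow_le_pow_left₀ (by simp) (nu_le_level r l) _).trans ?_
  have hx : ((2 : ℝ)⁻¹) ^ (l + 2) ≤ 1 := pow_le_one₀ (by norm_num) (by norm_num)
  have h := one_sub_pow_le ((2 : ℝ)⁻¹ ^ (l + 2)) (by positivity) hx (Nn l)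
  have e2 : (Nn l : ℝ) * (2 : ℝ)⁻¹ ^ (l + 2) = 2 ^ (l + 4) := by
    simp only [Nn]
    push_cast
    rw [show 2 * l + 6 = (l + 4) + (l + 2) by ring, pow_add, mul_assoc, ← mul_pow]
    simp
  rw [e2] at h
  have h' : (1 - (2 : ℝ)⁻¹ ^ (l + 2)) ^ Nn l ≤ (2 : ℝ)⁻¹ ^ (l + 4) := by
    have hp : (0 : ℝ) < 2 ^ (l + 4) := by positivity
    have hq : 0 ≤ (1 - (2 : ℝ)⁻¹ ^ (l + 2)) ^ Nn l := pow_nonneg (by linarith) _
    rw [inv_pow _ (l + 4), ← one_div (2 ^ (l + 4) : ℝ), le_div_iff₀ hp]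
    nlinarith
  have e3 : ∀ k : ℕ, (2⁻¹ : ℝ≥0∞) ^ k = ENNReal.ofReal ((2 : ℝ)⁻¹ ^ k) := by
    intro k
    rw [ENNReal.ofReal_pow (by norm_num), ENNReal.ofReal_inv_of_pos (by norm_num)]
    simp
  rw [e3, e3, ← ENNReal.ofReal_one, ← ENNReal.ofReal_sub _ (by positivity),
    ← ENNReal.ofReal_pow (by linarith)]
  exact ENNReal.ofReal_le_ofReal h'

theorem P_B1 (r l : ℕ) : PP r (B1 l) ≤ 2⁻¹ ^ (l + 4) := by
  classical
  set N := Nn (l + 1)
  set L := Ln r (l + 1) with hL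
  have hsub : B1 l ⊆ ⋃ p ∈ (Finset.range N ×ˢ Finset.range N).filter (fun p => p.1 ≠ p.2),
      ⋃ i : ℕ, Set.pi ({p.1, p.2} : Finset ℕ) (fun _ => {x : Idx | x.1 = l + 1 ∧ x.2.1 = i}) := by
    rintro ξ ⟨a, ha, b, hb, hab, h1, h2, h3⟩
    simp only [Set.mem_iUnion]
    refine ⟨(a, b), by simp [ha, hb, hab, N], (ξ a).2.1, ?_⟩
    intro c hc
    simp only [Finset.coe_insert, Finset.coe_singleton, Set.mem_insert_iff,
      Set.mem_singleton_iff] at hc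
    rcases hc with rfl | rfl
    · exact ⟨h1, rfl⟩
    · exact ⟨h2, h3.symm⟩
  refine (measure_mono hsub).trans ((measure_biUnion_finset_le _ _).trans ?_)
  have hone : ∀ p ∈ (Finset.range N ×ˢ Finset.range N).filter (fun p => p.1 ≠ p.2),
      PP r (⋃ i : ℕ, Set.pi ({p.1, p.2} : Finset ℕ)
        (fun _ => {x : Idx | x.1 = l + 1 ∧ x.2.1 = i})) ≤ (L : ℝ≥0∞)⁻¹ := by
    intro p hp
    have hne : p.1 ≠ p.2 := (Finset.mem_filter.1 hp).2
    refine (measure_iUnion_le _).trans ?_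
    have : ∀ i : ℕ, PP r (Set.pi ({p.1, p.2} : Finset ℕ)
        (fun _ => {x : Idx | x.1 = l + 1 ∧ x.2.1 = i}))
        ≤ if i < L then (L : ℝ≥0∞)⁻¹ * (L : ℝ≥0∞)⁻¹ else 0 := by
      intro i
      rw [Measure.infinitePi_pi _ (fun _ _ => MeasurableSet.of_discrete), Finset.prod_pair hne]
      have := nu_idx r (l + 1) i
      rw [← hL] at this
      split_ifs at this ⊢
      · exact mul_le_mul' this this
      · rw [le_zero_iff.1 this]; simp
    refine (ENNReal.tsum_le_tsum this).trans ?_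
    rw [tsum_eq_sum (s := Finset.range L) (by intro i hi; simp at hi; simp [hi])]
    rw [Finset.sum_congr rfl (g := fun _ => (L : ℝ≥0∞)⁻¹ * (L : ℝ≥0∞)⁻¹)
      (by intro i hi; simp at hi; simp [hi])]
    rw [Finset.sum_const, Finset.card_range, nsmul_eq_mul, ← mul_assoc,
      ENNReal.mul_inv_cancel (by simpa using (Ln_pos r (l + 1)).ne') (by simp), one_mul]
  refine (Finset.sum_le_card_nsmul _ _ _ hone).trans ?_
  have hcard : ((Finset.range N ×ˢ Finset.range N).filter (fun p => p.1 ≠ p.2)).card ≤ N ^ 2 :=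
    (Finset.card_filter_le _ _).trans (by simp [sq])
  rw [nsmul_eq_mul]
  have hN : (N : ℝ≥0∞) ≠ 0 := by simp [N, Nn]
  calc _ ≤ ((N ^ 2 : ℕ) : ℝ≥0∞) * (L : ℝ≥0∞)⁻¹ := by gcongr
    _ = 2⁻¹ ^ (l + 5) := by
      rw [hL, Ln, if_neg (by omega)]
      push_cast
      rw [ENNReal.mul_inv (by simp [hN, N]) (by simp), ← mul_assoc,
        ENNReal.mul_inv_cancel (pow_ne_zero _ hN) (by simp), one_mul, ENNReal.inv_pow]
    _ ≤ 2⁻¹ ^ (l + 4) := pow_le_pow_of_le_one (by simp) (by simp) (by omega)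

theorem P_bad (r : ℕ) : PP r (B0 ∪ (⋃ l, B1 l) ∪ ⋃ l, B2 l) < 1 := by
  have hs : ∑' l : ℕ, (2⁻¹ : ℝ≥0∞) ^ (l + 4) = 8⁻¹ := by
    have : ∀ l : ℕ, (2⁻¹ : ℝ≥0∞) ^ (l + 4) = 2⁻¹ ^ (l + 1) * 2⁻¹ ^ 3 := fun l => by
      rw [← pow_add]
    simp only [this]
    rw [ENNReal.tsum_mul_right, ENNReal.tsum_geometric_add_one]
    simp only [ENNReal.one_sub_inv_two, inv_inv]
    rw [ENNReal.inv_mul_cancel (by simp) (by simp), one_mul, ← ENNReal.inv_pow]
    norm_num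
  have h1 : PP r (⋃ l, B1 l) ≤ 8⁻¹ :=
    (measure_iUnion_le _).trans (hs ▸ ENNReal.tsum_le_tsum (P_B1 r))
  have h2 : PP r (⋃ l, B2 l) ≤ 8⁻¹ :=
    (measure_iUnion_le _).trans (hs ▸ ENNReal.tsum_le_tsum (P_B2 r))
  refine ((measure_union_le _ _).trans (add_le_add ((measure_union_le _ _).trans
    (add_le_add (P_B0 r).le h1)) h2)).trans_lt ?_
  have : (2⁻¹ + 8⁻¹ + 8⁻¹ : ℝ≥0∞) = ENNReal.ofReal (2⁻¹ + 8⁻¹ + 8⁻¹) := by
    rw [ENNReal.ofReal_add (by norm_num) (by norm_num),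
      ENNReal.ofReal_add (by norm_num) (by norm_num), ENNReal.ofReal_inv_of_pos (by norm_num),
      ENNReal.ofReal_inv_of_pos (by norm_num)]
    simp
  rw [this, ← ENNReal.ofReal_one]
  exact (ENNReal.ofReal_lt_ofReal_iff (by norm_num)).2 (by norm_num)

end Pool.Agent.P.MP_7faad7_pr
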