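import Mathlib

namespace Pool.Agent.P.MP_7faad7_pr

open Real

theorem exists_theta (d : ℕ → Bool) :
    ∃ θ : ℝ, ∀ j : ℕ, 1 / 2 ≤ (if d j then 1 else -1) * cos (4 ^ j * θ) := by
  let z : ℕ → ℕ := fun j => if d j then 0 else 1
  have hz : ∀ j, (z j : ℝ) ≤ 1 := fun j => by
    simp only [z]; split_ifs <;> simp
  have hg : Summable fun i : ℕ => ((1 : ℝ) / 4) ^ i :=
    summable_geometric_of_lt_one (by norm_num) (by norm_num)
  have hs : ∀ j, Summable fun i : ℕ => (z (j + i) : ℝ) * (1 / 4) ^ i := fun j =>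
    Summable.of_nonneg_of_le (fun i => by positivity)
      (fun i => mul_le_of_le_one_left (by positivity) (hz _)) hg
  let τ : ℕ → ℝ := fun j => ∑' i : ℕ, (z (j + i) : ℝ) * (1 / 4) ^ i
  have hτ0 : ∀ j, 0 ≤ τ j := fun j => tsum_nonneg fun i => by positivity
  have hτ1 : ∀ j, τ j ≤ 4 / 3 := fun j => by
    have := (hs j).tsum_le_tsum (fun i => mul_le_of_le_one_left (by positivity) (hz _)) hg
    rw [tsum_geometric_of_lt_one (by norm_num) (by norm_num)] at this
    norm_num at this ⊢
    exact this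
  have hrec : ∀ j, τ j = z j + τ (j + 1) / 4 := fun j => by
    simp only [τ]
    rw [(hs j).tsum_eq_zero_add, ← tsum_div_const]
    congr 1
    · simp
    · congr 1
      ext i
      rw [show j + (i + 1) = j + 1 + i by ring]
      ring
  have hint : ∀ j, ∃ m : ℕ, 4 ^ j * τ 0 = τ j + 4 * m := by
    intro j
    induction j with
    | zero => exact ⟨0, by simp⟩
    | succ j ih =>
      obtain ⟨m, hm⟩ := ih
      refine ⟨z j + 4 * m, ?_⟩
      rw [pow_succ, mul_comm _ (4 : ℝ), mul_assoc, hm, hrec j]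
      push_cast
      ring
  refine ⟨π * τ 0, fun j => ?_⟩
  obtain ⟨m, hm⟩ := hint j
  have e : (4 : ℝ) ^ j * (π * τ 0) = π * τ j + ((2 * m : ℕ) : ℝ) * (2 * π) := by
    rw [mul_left_comm, hm]; push_cast; ring
  rw [e, cos_add_nat_mul_two_pi, hrec j]
  have hc : 1 / 2 ≤ cos (π * (τ (j + 1) / 4)) := by
    rw [← cos_pi_div_three]
    apply cos_le_cos_of_nonneg_of_le_pi
    · have := hτ0 (j + 1); positivity
    · linarith [pi_pos]
    · have := hτ1 (j + 1); nlinarith [pi_pos]
  cases h : d j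
  · simp only [z, h]
    simp only [Bool.false_eq_true, if_false, Nat.cast_one, mul_add, mul_one]
    rw [add_comm, cos_add_pi]
    linarith
  · simp only [z, h]
    simpa using hc

end Pool.Agent.P.MP_7faad7_pr
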