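import Mathlib
import Pool.Agent.P.MP_7faad7_pr.Defs
import Pool.Agent.P.MP_7faad7_pr.Theta
import Pool.Agent.P.MP_7faad7_pr.Prob

namespace Pool.Agent.P.MP_7faad7_pr

open MeasureTheory Polynomial
open scoped ENNReal

/-- amplitude at level `l` -/
def cc : ℕ → ℕ
  | 0 => 1
  | l + 1 => 2 * Nn (l + 1) * 4 ^ Nn (l + 1) * cc l

theorem cc_pos (l : ℕ) : 0 < cc l := by
  induction l with
  | zero => simp [cc]
  | succ l ih => simp only [cc, Nn]; positivity

theorem cc_mono : Monotone cc := by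
  apply monotone_nat_of_le_succ
  intro l
  simp only [cc]
  exact Nat.le_mul_of_pos_left _ (by simp only [Nn]; positivity)

/-- Deterministic part: outside the bad events the translation part of the walk is nonnegative. -/
theorem good_nonneg {H : Type} [Group H] (m F : H → ℝ)
    (hm : ∀ g h, m (g * h) = m g * m h) (hm1 : m 1 = 1)
    (hF : ∀ g h, F (g * h) = F g + m g * F h)
    (e : Idx → H) (he : ∀ x, 1 / 2 ≤ m (e x) ∧ m (e x) ≤ 2 ∧ |F (e x)| ≤ cc x.1)
    (ξ : ℕ → Idx) (h0 : ξ ∉ B0) (h2 : ∀ l, ξ ∉ B2 l)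
    (htop : ∀ l, ∀ a < Nn (l + 1), (ξ a).1 = l + 1 → (cc (l + 1) : ℝ) / 2 ≤ F (e (ξ a)))
    (n : ℕ) : 0 < m (walk (fun i => e (ξ i)) n) ∧ 0 ≤ F (walk (fun i => e (ξ i)) n) := by
  set ω : ℕ → H := fun i => e (ξ i) with hω
  have hF1 : F 1 = 0 := by
    have := hF 1 1
    rw [one_mul, hm1] at this
    linarith
  have hmb : ∀ a, (1 / 2) ^ a ≤ m (walk ω a) ∧ m (walk ω a) ≤ 2 ^ a := by
    intro a
    induction a with
    | zero => simp [walk, hm1]
    | succ a ih =>
      obtain ⟨h1, h2, -⟩ := he (ξ a)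
      have hp : 0 < m (walk ω a) := lt_of_lt_of_le (by positivity) ih.1
      simp only [walk, hm, pow_succ]
      constructor
      · exact mul_le_mul ih.1 h1 (by norm_num) hp.le
      · exact mul_le_mul ih.2 h2 (by simp only [hω]; linarith) (by positivity)
  have hsum : ∀ a, F (walk ω a) = ∑ i ∈ Finset.range a, m (walk ω i) * F (ω i) := by
    intro a
    induction a with
    | zero => simp [walk, hF1]
    | succ a ih => rw [Finset.sum_range_succ, ← ih, walk, hF]
  refine ⟨lt_of_lt_of_le (by positivity) (hmb n).1, ?_⟩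
  rcases Nat.eq_zero_or_pos n with rfl | hn
  · simp [walk, hF1]
  obtain ⟨a0, ha0, hmax⟩ := Finset.exists_max_image (Finset.range n) (fun a => (ξ a).1)
    ⟨0, Finset.mem_range.2 hn⟩
  have hl : 0 < (ξ a0).1 := lt_of_lt_of_le (Nat.pos_of_ne_zero h0) (hmax 0 (Finset.mem_range.2 hn))
  obtain ⟨l, hl⟩ : ∃ l, (ξ a0).1 = l + 1 := ⟨(ξ a0).1 - 1, by omega⟩
  have hnN : n ≤ Nn (l + 1) := by
    have := h2 (l + 1)
    simp only [B2, Set.mem_ofPred_eq, not_forall, not_le] at this
    obtain ⟨a, ha, hlt⟩ := this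
    by_contra hcon
    have := hmax a (Finset.mem_range.2 (by omega))
    omega
  set N := Nn (l + 1) with hN
  have hc : (0 : ℝ) < cc l := by exact_mod_cast cc_pos l
  have hlow : ∀ a ∈ Finset.range n, -(2 ^ N * (cc l : ℝ)) ≤ m (walk ω a) * F (ω a) := by
    intro a ha
    have ha' := Finset.mem_range.1 ha
    have hp : 0 < m (walk ω a) := lt_of_lt_of_le (by positivity) (hmb a).1
    by_cases hal : (ξ a).1 = l + 1
    · have := htop l a (by omega) hal
      have h3 : 0 ≤ F (ω a) := le_trans (by positivity) this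
      exact le_trans (neg_nonpos.2 (by positivity)) (mul_nonneg hp.le h3)
    · have h4 : (ξ a).1 ≤ l := by have := hmax a ha; omega
      have h5 : |F (ω a)| ≤ cc l := (he (ξ a)).2.2.trans (by exact_mod_cast cc_mono h4)
      have h6 : m (walk ω a) ≤ 2 ^ N :=
        (hmb a).2.trans (pow_le_pow_right₀ (by norm_num) (by omega))
      have h7 := (abs_le.1 h5).1
      nlinarith
  have hhigh : (N : ℝ) * (2 ^ N * (cc l : ℝ)) ≤ m (walk ω a0) * F (ω a0) := by
    have ha' := Finset.mem_range.1 ha0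
    have h3 := htop l a0 (by omega) hl
    have h4 : ((1 : ℝ) / 2) ^ N ≤ m (walk ω a0) :=
      le_trans (pow_le_pow_of_le_one (by norm_num) (by norm_num) (by omega)) (hmb a0).1
    have e1 : (N : ℝ) * (2 ^ N * (cc l : ℝ)) = (1 / 2) ^ N * ((cc (l + 1) : ℝ) / 2) := by
      simp only [cc, ← hN]
      push_cast
      have : (4 : ℝ) ^ N = 2 ^ N * 2 ^ N := by rw [← mul_pow]; norm_num
      rw [this, one_div, inv_pow]
      field_simp
    rw [e1]
    exact mul_le_mul h4 h3 (by positivity) (le_trans (by positivity) h4)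
  rw [hsum, ← Finset.add_sum_erase _ _ ha0]
  have := Finset.card_nsmul_le_sum ((Finset.range n).erase a0) (fun a => m (walk ω a) * F (ω a))
    (-(2 ^ N * (cc l : ℝ))) (fun a ha => hlow a (Finset.mem_of_mem_erase ha))
  rw [Finset.card_erase_of_mem ha0, Finset.card_range, nsmul_eq_mul] at this
  have h8 : ((n - 1 : ℕ) : ℝ) ≤ N := by exact_mod_cast (by omega : n - 1 ≤ N)
  have h9 : (0 : ℝ) < 2 ^ N * (cc l : ℝ) := by positivity
  nlinarith

/-- A group that acts, for every `α ∈ [1, 2]`, on the line by affine maps `x ↦ m x + F`, and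
contains translations by all integer polynomials in `α`, is not algebraically recurrent. -/
theorem not_isAR_of_cocycle {H : Type} [Group H] [Countable H] (m F : ℝ → H → ℝ)
    (hm : ∀ α ∈ Set.Icc (1 : ℝ) 2, ∀ g h, m α (g * h) = m α g * m α h)
    (hm1 : ∀ α ∈ Set.Icc (1 : ℝ) 2, m α 1 = 1)
    (hF : ∀ α ∈ Set.Icc (1 : ℝ) 2, ∀ g h, F α (g * h) = F α g + m α g * F α h)
    (r : ℕ) (s : ℕ → H) (hs : Subgroup.closure (s '' Set.Iic r) = ⊤)
    (hsb : ∀ α ∈ Set.Icc (1 : ℝ) 2, ∀ i, 1 / 2 ≤ m α (s i) ∧ m α (s i) ≤ 2 ∧ |F α (s i)| ≤ 1 ∧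
      |F α (s i)⁻¹| ≤ 1)
    (hp : ∀ p : ℤ[X], ∃ g, ∀ α ∈ Set.Icc (1 : ℝ) 2, m α g = 1 ∧ F α g = aeval α p) :
    ¬ IsAR H := by
  classical
  intro hAR
  choose gp hgp using hp
  let pol : ℕ → ℕ → ℤ[X] := fun l i =>
    C (cc l : ℤ) * (Chebyshev.T ℤ (4 ^ Nat.pair l i)).comp (2 * X - 3)
  let e' : ℕ → ℕ → H := fun l i => if l = 0 then s i else gp (pol l i)
  let e : Idx → H := fun x => if x.2.2 then e' x.1 x.2.1 else (e' x.1 x.2.1)⁻¹
  let μ : PMF H := (nu r).map e
  let sw : Idx ≃ Idx :=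
    { toFun := fun x => (x.1, x.2.1, !x.2.2)
      invFun := fun x => (x.1, x.2.1, !x.2.2)
      left_inv := fun x => by simp
      right_inv := fun x => by simp }
  have hsw : ∀ x, e (sw x) = (e x)⁻¹ := by
    rintro ⟨l, i, b⟩
    cases b <;> simp [e, sw]
  have hsym : ∀ g, μ g⁻¹ = μ g := by
    intro g
    simp only [μ, PMF.map_apply]
    rw [← sw.tsum_eq]
    congr 1
    ext x
    rw [hsw, inv_inj]
    rfl
  have hgen : Subgroup.closure μ.support = ⊤ := by
    rw [eq_top_iff, ← hs]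
    apply Subgroup.closure_mono
    rintro _ ⟨i, hi, rfl⟩
    rw [PMF.mem_support_map_iff]
    refine ⟨(0, i, true), ?_, by simp [e, e']⟩
    rw [PMF.mem_support_iff, nu_apply]
    have : i < r + 1 := Nat.lt_succ_of_le hi
    simp [wt, Ln, this, ENNReal.mul_eq_top]
  have hae := hAR μ hsym hgen 1 le_rfl
  let _ : MeasurableSpace H := ⊤
  have hmap := Measure.infinitePi_map_pi (fun _ : ℕ => (nu r).toMeasure)
    (f := fun _ => e) (fun _ => Measurable.of_discrete)
  rw [PMF.toMeasure_map _ _ Measurable.of_discrete] at hmap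
  rw [← hmap] at hae
  have hae' := ae_of_ae_map (Measurable.aemeasurable (by fun_prop)) hae
  have hsub : ∀ ξ : ℕ → Idx, tailSemigroup (fun i => e (ξ i)) 1 = ⊤ →
      ξ ∈ B0 ∪ (⋃ l, B1 l) ∪ ⋃ l, B2 l := by
    intro ξ htop
    by_contra hbad
    simp only [Set.mem_union, Set.mem_iUnion, not_or, not_exists] at hbad
    obtain ⟨⟨h0, h1⟩, h2⟩ := hbad
    obtain ⟨θ, hθ⟩ := exists_theta (fun j => decide (∃ a < Nn (Nat.unpair j).1,
      ξ a = ((Nat.unpair j).1, (Nat.unpair j).2, true)))
    set α : ℝ := (3 + Real.cos θ) / 2 with hα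
    have hαI : α ∈ Set.Icc (1 : ℝ) 2 := by
      constructor <;> linarith [Real.cos_le_one θ, Real.neg_one_le_cos θ]
    have hF1 : F α 1 = 0 := by
      have := hF α hαI 1 1
      rw [one_mul, hm1 α hαI] at this
      linarith
    have hminv : ∀ g, m α g * m α g⁻¹ = 1 := fun g => by
      rw [← hm α hαI, mul_inv_cancel, hm1 α hαI]
    have hFinv : ∀ g, m α g = 1 → F α g⁻¹ = -F α g := fun g hg => by
      have := hF α hαI g g⁻¹
      rw [mul_inv_cancel, hF1, hg] at this
      linarith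
    have hpol : ∀ l i, aeval α (pol l i) = cc l * Real.cos (4 ^ Nat.pair l i * θ) := by
      intro l i
      simp only [pol, map_mul, aeval_C, aeval_comp, map_sub, map_ofNat, aeval_X]
      rw [show 2 * α - 3 = Real.cos θ by rw [hα]; ring, Chebyshev.aeval_T, Chebyshev.T_real_cos]
      simp
    have he : ∀ x, 1 / 2 ≤ m α (e x) ∧ m α (e x) ≤ 2 ∧ |F α (e x)| ≤ cc x.1 := by
      rintro ⟨l, i, b⟩
      by_cases hl : l = 0
      · subst hl
        obtain ⟨h1, h2, h3, h4⟩ := hsb α hαI i
        cases b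
        · have h5 := hminv (s i)
          simp only [e, e', cc, if_true, Bool.false_eq_true, if_false, Nat.cast_one]
          have h6 : 0 < m α (s i)⁻¹ := by
            by_contra h6
            nlinarith
          refine ⟨by nlinarith, by nlinarith, h4⟩
        · simpa [e, e', cc] using ⟨by simpa using h1, h2, h3⟩
      · obtain ⟨h1, h2⟩ := hgp (pol l i) α hαI
        have h3 : |F α (gp (pol l i))| ≤ cc l := by
          rw [h2, hpol, abs_mul, Nat.abs_cast]
          exact mul_le_of_le_one_right (by positivity) (Real.abs_cos_le_one _)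
        cases b
        · have h5 := hminv (gp (pol l i))
          rw [h1, one_mul] at h5
          simp only [e, e', hl, if_false, Bool.false_eq_true, h5, hFinv _ h1, abs_neg]
          exact ⟨by norm_num, by norm_num, h3⟩
        · simp only [e, e', hl, if_false, if_true, h1]
          exact ⟨by norm_num, by norm_num, h3⟩
    have htp : ∀ l, ∀ a < Nn (l + 1), (ξ a).1 = l + 1 → (cc (l + 1) : ℝ) / 2 ≤ F α (e (ξ a)) := by
      intro l a ha hl
      have h := hθ (Nat.pair (l + 1) (ξ a).2.1)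
      simp only [Nat.unpair_pair] at h
      obtain ⟨h3, h4⟩ := hgp (pol (l + 1) (ξ a).2.1) α hαI
      have hc : (0 : ℝ) < cc (l + 1) := by exact_mod_cast cc_pos _
      cases hb : (ξ a).2.2
      · have hno : ¬ ∃ a' < Nn (l + 1), ξ a' = (l + 1, (ξ a).2.1, true) := by
          rintro ⟨a', ha', h5⟩
          apply h1 l
          refine ⟨a, ha, a', ha', ?_, hl, by rw [h5], by rw [h5]⟩
          rintro rfl
          rw [h5] at hb
          simp at hb
        simp only [hno, decide_false, Bool.false_eq_true, if_false] at h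
        simp only [e, e', hb, hl, Bool.false_eq_true, if_false, Nat.succ_ne_zero, hFinv _ h3, h4,
          hpol]
        nlinarith
      · have hyes : ∃ a' < Nn (l + 1), ξ a' = (l + 1, (ξ a).2.1, true) :=
          ⟨a, ha, by rw [← hl, ← hb]⟩
        simp only [hyes, decide_true, if_true] at h
        simp only [e, e', hb, hl, if_true, if_false, Nat.succ_ne_zero, h4, hpol]
        nlinarith
    have hgood := good_nonneg (m α) (F α) (hm α hαI) (hm1 α hαI) (hF α hαI) e he ξ h0 h2 htp
    let P : Subsemigroup H :=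
      { carrier := {g | 0 < m α g ∧ 0 ≤ F α g}
        mul_mem' := by
          rintro a b ⟨h1, h2⟩ ⟨h3, h4⟩
          refine ⟨by rw [hm α hαI]; positivity, by rw [hF α hαI]; positivity⟩ }
    have hle : tailSemigroup (fun i => e (ξ i)) 1 ≤ P := by
      apply Subsemigroup.closure_le.2
      rintro _ ⟨i, -, rfl⟩
      exact hgood i
    rw [htop] at hle
    have := (hle (Subsemigroup.mem_top (gp (-1)))).2
    rw [(hgp (-1) α hαI).2] at this
    simp at this
    linarith
  have hone : PP r (B0 ∪ (⋃ l, B1 l) ∪ ⋃ l, B2 l) = 1 := by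
    rw [← measure_univ (μ := PP r)]
    apply measure_congr
    rw [ae_eq_univ, ← compl_mem_ae_iff, compl_compl]
    filter_upwards [hae'] with ξ hξ using hsub ξ hξ
  exact absurd hone (P_bad r).ne

end Pool.Agent.P.MP_7faad7_pr
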