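import Mathlib
import Pool.Agent.P.MP_7faad7_pr.Defs
import Pool.Agent.P.MP_7faad7_pr.Monkey
import Pool.Agent.P.MP_7faad7_pr.NotAR

namespace Pool.Agent.P.MP_7faad7_pr

open LaurentPolynomial

abbrev RR : Type := LaurentPolynomial ℤ

/-- `diag (t ^ k, t ^ (-k))` -/
noncomputable def DD (k : ℤ) (v : RR × RR) : RR × RR := (T k * v.1, T (-k) * v.2)

/-- powers of the rotation `(x, y) ↦ (-y, x)` -/
noncomputable def JJ (s : ZMod 4) (v : RR × RR) : RR × RR :=
  if s = 0 then v else if s = 1 then (-v.2, v.1) else if s = 2 then (-v.1, -v.2) else (v.2, -v.1)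

def sg (s : ZMod 4) : ℤ := if s = 0 ∨ s = 2 then 1 else -1

theorem z4 (s : ZMod 4) : s = 0 ∨ s = 1 ∨ s = 2 ∨ s = 3 := by revert s; decide

theorem sg_add (s t : ZMod 4) : sg (s + t) = sg s * sg t := by revert s t; decide

theorem sg_neg (s : ZMod 4) : sg (-s) = sg s := by revert s; decide

theorem sg_sq (s : ZMod 4) : sg s * sg s = 1 := by revert s; decide

theorem JJ0 (v : RR × RR) : JJ 0 v = v := by simp [JJ]
theorem JJ1 (v : RR × RR) : JJ 1 v = (-v.2, v.1) := by
  rw [JJ, if_neg (by decide), if_pos rfl]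
theorem JJ2 (v : RR × RR) : JJ 2 v = (-v.1, -v.2) := by
  rw [JJ, if_neg (by decide), if_neg (by decide), if_pos rfl]
theorem JJ3 (v : RR × RR) : JJ 3 v = (v.2, -v.1) := by
  rw [JJ, if_neg (by decide), if_neg (by decide), if_neg (by decide)]

theorem JJ_succ (s : ZMod 4) (v : RR × RR) : JJ (s + 1) v = JJ 1 (JJ s v) := by
  rcases z4 s with rfl | rfl | rfl | rfl
  · simp [JJ0]
  · rw [show (1 + 1 : ZMod 4) = 2 by decide]; simp [JJ1, JJ2]
  · rw [show (2 + 1 : ZMod 4) = 3 by decide]; simp [JJ1, JJ2, JJ3]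
  · rw [show (3 + 1 : ZMod 4) = 0 by decide]; simp [JJ0, JJ1, JJ3]

theorem JJ_add (s t : ZMod 4) (v : RR × RR) : JJ (s + t) v = JJ s (JJ t v) := by
  have h1 : ∀ t v, JJ (1 + t) v = JJ 1 (JJ t v) := fun t v => by rw [add_comm, JJ_succ]
  rcases z4 s with rfl | rfl | rfl | rfl
  · simp [JJ0]
  · exact h1 t v
  · rw [show (2 : ZMod 4) = 1 + 1 by decide, add_assoc, h1, h1, h1]
  · rw [show (3 : ZMod 4) = 1 + (1 + 1) by decide, add_assoc, add_assoc, h1, h1, h1, h1, h1]

theorem JJ_vadd (s : ZMod 4) (v w : RR × RR) : JJ s (v + w) = JJ s v + JJ s w := by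
  rcases z4 s with rfl | rfl | rfl | rfl <;> simp [JJ0, JJ1, JJ2, JJ3, add_comm]

theorem JJ_vneg (s : ZMod 4) (v : RR × RR) : JJ s (-v) = -JJ s v := by
  rcases z4 s with rfl | rfl | rfl | rfl <;> simp [JJ0, JJ1, JJ2, JJ3]

theorem JJ_vzero (s : ZMod 4) : JJ s 0 = 0 := by
  rcases z4 s with rfl | rfl | rfl | rfl <;> simp [JJ0, JJ1, JJ2, JJ3]

theorem JJ_DD (s : ZMod 4) (k : ℤ) (v : RR × RR) : JJ s (DD k v) = DD (sg s * k) (JJ s v) := by
  rcases z4 s with rfl | rfl | rfl | rfl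
  · simp [JJ0, sg]
  · rw [show sg 1 = -1 by decide]; simp [JJ1, DD]
  · rw [show sg 2 = 1 by decide]; simp [JJ2, DD]
  · rw [show sg 3 = -1 by decide]; simp [JJ3, DD]

theorem DD_add (k l : ℤ) (v : RR × RR) : DD (k + l) v = DD k (DD l v) := by
  simp only [DD, ← mul_assoc, ← T_add, neg_add]

theorem DD_vadd (k : ℤ) (v w : RR × RR) : DD k (v + w) = DD k v + DD k w := by
  simp [DD, mul_add]

theorem DD_vneg (k : ℤ) (v : RR × RR) : DD k (-v) = -DD k v := by
  simp [DD]

theorem DD_zero (v : RR × RR) : DD 0 v = v := by simp [DD]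

theorem DD_vzero (k : ℤ) : DD k 0 = 0 := by simp [DD]

/-- The affine maps `w ↦ D ^ k J ^ s w + v` of `RR × RR`. -/
@[ext] structure GG : Type where
  v : RR × RR
  k : ℤ
  s : ZMod 4

noncomputable instance : Mul GG :=
  ⟨fun g h => ⟨g.v + DD g.k (JJ g.s h.v), g.k + sg g.s * h.k, g.s + h.s⟩⟩

noncomputable instance : One GG := ⟨⟨0, 0, 0⟩⟩

noncomputable instance : Inv GG := ⟨fun g => ⟨-JJ (-g.s) (DD (-g.k) g.v), -(sg g.s * g.k), -g.s⟩⟩

theorem mul_v (g h : GG) : (g * h).v = g.v + DD g.k (JJ g.s h.v) := rfl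
theorem mul_k (g h : GG) : (g * h).k = g.k + sg g.s * h.k := rfl
theorem mul_s (g h : GG) : (g * h).s = g.s + h.s := rfl
theorem one_v : (1 : GG).v = 0 := rfl
theorem one_k : (1 : GG).k = 0 := rfl
theorem one_s : (1 : GG).s = 0 := rfl
theorem inv_v (g : GG) : (g⁻¹).v = -JJ (-g.s) (DD (-g.k) g.v) := rfl
theorem inv_k (g : GG) : (g⁻¹).k = -(sg g.s * g.k) := rfl
theorem inv_s (g : GG) : (g⁻¹).s = -g.s := rfl

theorem sg0 : sg 0 = 1 := by decide

noncomputable instance : Group GG :=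
  Group.ofLeftAxioms
    (fun a b c => by
      apply GG.ext
      · simp only [mul_v, mul_k, mul_s, JJ_vadd, DD_vadd, JJ_add, JJ_DD, DD_add, add_assoc]
      · simp only [mul_k, mul_s, sg_add]; ring
      · simp only [mul_s, add_assoc])
    (fun a => by
      apply GG.ext
      · simp [mul_v, one_v, one_k, one_s, JJ0, DD_zero]
      · simp [mul_k, one_k, one_s, sg0]
      · simp [mul_s, one_s])
    (fun a => by
      apply GG.ext
      · simp only [mul_v, inv_v, inv_k, inv_s, one_v, JJ_DD, sg_neg, mul_neg, neg_add_cancel]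
      · simp only [mul_k, inv_k, inv_s, sg_neg, one_k, neg_add_cancel]
      · simp only [mul_s, inv_s, one_s, neg_add_cancel])

instance : Countable RR :=
  Function.Injective.countable (f := fun p : RR => p.coeff) AddMonoidAlgebra.coeff_injective

instance : Countable GG :=
  Function.Injective.countable (f := fun g : GG => (g.v, g.k, g.s)) (by
    rintro ⟨a, b, c⟩ ⟨a', b', c'⟩ h
    simp only [Prod.mk.injEq] at h
    obtain ⟨rfl, rfl, rfl⟩ := h
    rfl)

/-- the rotation part -/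
noncomputable def chi : GG →* Multiplicative (ZMod 4) :=
  MonoidHom.mk' (fun g => Multiplicative.ofAdd g.s) (fun _ _ => rfl)

/-- the subgroup of index four -/
noncomputable def HH : Subgroup GG := chi.ker

theorem mem_HH (g : GG) : g ∈ HH ↔ g.s = 0 := Iff.rfl

instance : HH.FiniteIndex := Subgroup.finiteIndex_ker chi

/-- the subgroup of index two -/
noncomputable def KK : Subgroup GG where
  carrier := {g | sg g.s = 1}
  mul_mem' := by
    intro a b ha hb
    simp only [Set.mem_ofPred_eq] at ha hb ⊢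
    rw [mul_s, sg_add, ha, hb, one_mul]
  one_mem' := sg0
  inv_mem' := by
    intro a ha
    simp only [Set.mem_ofPred_eq] at ha ⊢
    rw [inv_s, sg_neg, ha]

theorem torsion_outside (g : GG) (hg : g ∉ KK) : IsOfFinOrder g := by
  have hs : sg g.s = -1 ∧ g.s + g.s = 2 := by
    have : ∀ s : ZMod 4, sg s ≠ 1 → sg s = -1 ∧ s + s = 2 := by decide
    exact this _ hg
  have h2 : (g * g).k = 0 ∧ (g * g).s = 2 := ⟨by rw [mul_k, hs.1]; ring, by rw [mul_s, hs.2]⟩
  refine isOfFinOrder_iff_pow_eq_one.2 ⟨4, by norm_num, ?_⟩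
  rw [show g ^ 4 = (g * g) * (g * g) by rw [show 4 = 2 * 2 by rfl, pow_mul, sq, sq]]
  generalize g * g = x at h2
  apply GG.ext
  · rw [mul_v, h2.1, h2.2, DD_zero, JJ2, one_v]
    ext <;> simp
  · rw [mul_k, h2.1, one_k]; simp
  · rw [mul_s, h2.2, one_s]; decide

noncomputable def rot : GG := ⟨0, 0, 1⟩
noncomputable def tt : GG := ⟨0, 1, 0⟩
noncomputable def e1 : GG := ⟨(1, 0), 0, 0⟩
noncomputable def e2 : GG := ⟨(0, 1), 0, 0⟩

theorem isAR_GG : IsAR GG :=
  isAR_of_torsion_outside KK rot (by change ¬ sg 1 = 1; decide) torsion_outside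

theorem tt_zpow (n : ℤ) : tt ^ n = ⟨0, n, 0⟩ := by
  induction n using Int.induction_on with
  | zero => rfl
  | succ n ih =>
    rw [zpow_add_one, ih]
    apply GG.ext <;> simp [mul_v, mul_k, mul_s, tt, JJ_vzero, DD_vzero, sg0]
  | pred n ih =>
    rw [zpow_sub_one, ih]
    apply GG.ext <;> simp [mul_v, mul_k, mul_s, inv_v, inv_k, inv_s, tt, JJ_vzero, DD_vzero, sg0,
      sub_eq_add_neg]

/-- translations -/
noncomputable def tr : Multiplicative (RR × RR) →* GG :=
  MonoidHom.mk' (fun v => ⟨v.toAdd, 0, 0⟩) (fun a b => by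
    apply GG.ext <;> simp [mul_v, mul_k, mul_s, JJ0, DD_zero])

theorem tr_conj (n : ℤ) (v : RR × RR) :
    tt ^ n * tr (Multiplicative.ofAdd v) * (tt ^ n)⁻¹ = tr (Multiplicative.ofAdd (DD n v)) := by
  rw [← zpow_neg, tt_zpow, tt_zpow]
  apply GG.ext <;> simp [mul_v, mul_k, mul_s, tr, JJ0, DD_vzero, sg0]

theorem tr_mem1 (S : Subgroup GG) (ht : tt ∈ S) (h1 : e1 ∈ S) (a : RR) :
    tr (Multiplicative.ofAdd (a, 0)) ∈ S := by
  induction a using LaurentPolynomial.induction_on' with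
  | add p q hp hq =>
    have := S.mul_mem hp hq
    rw [← map_mul, ← ofAdd_add] at this
    simpa using this
  | C_mul_T n c =>
    have h2 : tr (Multiplicative.ofAdd ((1 : RR), (0 : RR))) ∈ S := h1
    have h3 := S.zpow_mem (S.mul_mem (S.mul_mem (S.zpow_mem ht n) h2) (S.inv_mem (S.zpow_mem ht n))) c
    rw [tr_conj, ← map_zpow, ← ofAdd_zsmul] at h3
    simpa [DD] using h3

theorem tr_mem2 (S : Subgroup GG) (ht : tt ∈ S) (h1 : e2 ∈ S) (a : RR) :
    tr (Multiplicative.ofAdd (0, a)) ∈ S := by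
  induction a using LaurentPolynomial.induction_on' with
  | add p q hp hq =>
    have := S.mul_mem hp hq
    rw [← map_mul, ← ofAdd_add] at this
    simpa using this
  | C_mul_T n c =>
    have h2 : tr (Multiplicative.ofAdd ((0 : RR), (1 : RR))) ∈ S := h1
    have h3 := S.zpow_mem (S.mul_mem (S.mul_mem (S.zpow_mem ht (-n)) h2)
      (S.inv_mem (S.zpow_mem ht (-n)))) c
    rw [tr_conj, ← map_zpow, ← ofAdd_zsmul] at h3
    simpa [DD] using h3

theorem HH_le (S : Subgroup GG) (ht : tt ∈ S) (h1 : e1 ∈ S) (h2 : e2 ∈ S) : HH ≤ S := by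
  rintro ⟨⟨a, b⟩, k, s⟩ hg
  have hs : s = 0 := hg
  subst hs
  have := S.mul_mem (S.mul_mem (tr_mem1 S ht h1 a) (tr_mem2 S ht h2 b)) (S.zpow_mem ht k)
  rw [tt_zpow] at this
  convert this using 1
  apply GG.ext <;> simp [mul_v, mul_k, mul_s, tr, JJ0, DD_zero, sg0]

theorem fg_GG : Group.FG GG := by
  classical
  rw [Group.fg_iff]
  refine ⟨{tt, e1, e2, rot}, ?_, by simp⟩
  set S := Subgroup.closure ({tt, e1, e2, rot} : Set GG)
  have hH : HH ≤ S := HH_le S (Subgroup.subset_closure (by simp))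
    (Subgroup.subset_closure (by simp)) (Subgroup.subset_closure (by simp))
  have hr : rot ∈ S := Subgroup.subset_closure (by simp)
  have step : ∀ g : GG, g * rot ∈ S → g ∈ S := fun g hg => by
    simpa using S.mul_mem hg (S.inv_mem hr)
  have hs : ∀ g : GG, (g * rot).s = g.s + 1 := fun g => rfl
  rw [eq_top_iff]
  intro g _
  rcases z4 g.s with h | h | h | h
  · exact hH h
  · exact step _ (step _ (step _ (hH (by rw [mem_HH, hs, hs, hs, h]; decide))))
  · exact step _ (step _ (hH (by rw [mem_HH, hs, hs, h]; decide)))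
  · exact step _ (hH (by rw [mem_HH, hs, h]; decide))

/-- evaluation of a Laurent polynomial at a nonzero real number -/
noncomputable def ev (α : ℝ) (p : RR) : ℝ :=
  if h : α = 0 then 0 else LaurentPolynomial.eval₂ (Int.castRingHom ℝ) (Units.mk0 α h) p

/-- Any group mapping to `HH` with image containing `tt` and `e1`, with suitable generators, is
not algebraically recurrent. -/
theorem not_isAR_of_hom {H : Type} [Group H] [Countable H] (f : H →* GG) (hf : ∀ g, (f g).s = 0)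
    (ht : tt ∈ f.range) (h1 : e1 ∈ f.range) (r : ℕ) (s : ℕ → H)
    (hs : Subgroup.closure (s '' Set.Iic r) = ⊤)
    (hsf : ∀ i, f (s i) = tt ∨ f (s i) = e1 ∨ f (s i) = e2 ∨ f (s i) = 1) : ¬ IsAR H := by
  have hne : ∀ α ∈ Set.Icc (1 : ℝ) 2, α ≠ 0 := fun α hα => by linarith [hα.1]
  refine not_isAR_of_cocycle (fun α g => α ^ (f g).k) (fun α g => ev α (f g).v.1) ?_ ?_ ?_ r s hs
    ?_ ?_
  · intro α hα g h
    simp only [map_mul, mul_k, hf, sg0, one_mul, zpow_add₀ (hne α hα)]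
  · intro α _
    simp [one_k]
  · intro α hα g h
    simp [map_mul, mul_v, hf, JJ0, DD, ev, hne α hα, mul_comm]
  · intro α hα i
    have h3 := hα.1
    have h4 := hα.2
    simp only [map_inv]
    rcases hsf i with h | h | h | h <;> rw [h]
    · simp [tt, inv_v, JJ0, DD, ev, hne α hα]
      constructor <;> linarith
    · simp [e1, inv_v, JJ0, DD, ev, hne α hα]
      norm_num
    · simp [e2, inv_v, JJ0, DD, ev, hne α hα]
      norm_num
    · simp [one_k, one_v, ev, hne α hα]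
      norm_num
  · intro p
    obtain ⟨g, hg⟩ := tr_mem1 f.range ht h1 (Polynomial.toLaurent p)
    refine ⟨g, fun α hα => ?_⟩
    simp only [hg]
    simp [tr, ev, hne α hα, Polynomial.aeval_def]

theorem not_isAR_HH : ¬ IsAR HH := by
  let s : ℕ → HH := fun i => if i = 0 then ⟨tt, rfl⟩ else if i = 1 then ⟨e1, rfl⟩ else ⟨e2, rfl⟩
  refine not_isAR_of_hom HH.subtype (fun g => g.2) ⟨⟨tt, rfl⟩, rfl⟩ ⟨⟨e1, rfl⟩, rfl⟩ 2 s ?_ ?_
  · rw [eq_top_iff]
    intro g _
    have := HH_le ((Subgroup.closure (s '' Set.Iic 2)).map HH.subtype)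
      ⟨s 0, Subgroup.subset_closure ⟨0, by simp, rfl⟩, rfl⟩
      ⟨s 1, Subgroup.subset_closure ⟨1, by simp, rfl⟩, rfl⟩
      ⟨s 2, Subgroup.subset_closure ⟨2, by simp, rfl⟩, rfl⟩ g.2
    obtain ⟨x, hx, hxg⟩ := this
    rwa [← Subtype.ext hxg]
  · intro i
    simp only [s]
    split_ifs <;> simp

theorem not_isAR_free (d : ℕ) (hd : 2 ≤ d) : ¬ IsAR (FreeGroup (Fin d)) := by
  let φ : Fin d → GG := fun i => if i.1 = 0 then tt else if i.1 = 1 then e1 else 1
  let s : ℕ → FreeGroup (Fin d) := fun i => if h : i < d then FreeGroup.of ⟨i, h⟩ else 1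
  refine not_isAR_of_hom (FreeGroup.lift φ) ?_ ⟨FreeGroup.of ⟨0, by omega⟩, by simp [φ]⟩
    ⟨FreeGroup.of ⟨1, by omega⟩, by simp [φ]⟩ d s ?_ ?_
  · intro g
    have : (FreeGroup.lift φ).range ≤ HH := by
      rw [FreeGroup.range_lift_eq_closure, Subgroup.closure_le]
      rintro _ ⟨i, rfl⟩
      simp only [φ]
      split_ifs <;> rfl
    exact this ⟨g, rfl⟩
  · rw [eq_top_iff, ← FreeGroup.closure_range_of]
    apply Subgroup.closure_mono
    rintro _ ⟨i, rfl⟩
    exact ⟨i.1, i.2.le, by simp [s]⟩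
  · intro i
    simp only [s]
    split_ifs
    · simp only [FreeGroup.lift_apply_of, φ]
      split_ifs <;> simp
    · simp

end Pool.Agent.P.MP_7faad7_pr
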